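import Pool.Agent.H929R3.Main

set_option autoImplicit false

/-!
# Group-based phylogenetic ideals are not generated in degree |G| up to saturation
-/

namespace Pool.Agent.Results.MP_0eda79_ag.SatFails

open MvPolynomial

/-- The leaves of a tree: the vertices with exactly one neighbour. -/
abbrev Leaf {V : Type} (T : SimpleGraph V) : Type := {v : V // ∃! w, T.Adj v w}

/-- The part `L_e` of the leaf set cut off by the edge `e` that lies on the side of the end
point `u` of `e`: the leaves that can be reached from `u` after removing `e`. -/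
def side {V : Type} (T : SimpleGraph V) (e : Sym2 V) (u : V) : Set (Leaf T) :=
  {l | (T.deleteEdges {e}).Reachable u l.1}

/-- The index set of the coordinates: tuples indexed by the leaves with sum zero. -/
abbrev Coord (G : Type) [AddCommGroup G] {V : Type} (T : SimpleGraph V) : Type :=
  {g : Leaf T → G // ∑ᶠ l, g l = 0}

/-- `σ_e(g)`: the sum of the entries of `g` over the chosen part `L_e`; the function `u` chooses
for each edge the end point whose side is taken. -/
noncomputable def sigma {G : Type} [AddCommGroup G] {V : Type} (T : SimpleGraph V)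
    (u : T.edgeSet → V) (g : Leaf T → G) (e : T.edgeSet) : G :=
  ∑ᶠ (l : Leaf T) (_ : l ∈ side T e.1 (u e)), g l

/-- The monomial map `q_g ↦ ∏_e a^e_{σ_e(g)}`. -/
noncomputable def param (G : Type) [AddCommGroup G] {V : Type} (T : SimpleGraph V)
    (u : T.edgeSet → V) :
    MvPolynomial (Coord G T) ℂ →ₐ[ℂ] MvPolynomial (T.edgeSet × G) ℂ :=
  aeval fun g => ∏ᶠ e : T.edgeSet, X (e, sigma T u g.1 e)

/-- The ideal of the model: the kernel of the monomial map. -/
noncomputable def modelIdeal (G : Type) [AddCommGroup G] {V : Type} (T : SimpleGraph V)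
    (u : T.edgeSet → V) : Ideal (MvPolynomial (Coord G T) ℂ) :=
  RingHom.ker (param G T u)

/-- The ideal generated by the homogeneous elements of degree exactly `d`. -/
noncomputable def degPart {σ : Type} (I : Ideal (MvPolynomial σ ℂ)) (d : ℕ) :
    Ideal (MvPolynomial σ ℂ) :=
  Ideal.span {f | f ∈ I ∧ f.IsHomogeneous d}

/-- The ideal generated by the homogeneous elements of degree at most `d`. -/
noncomputable def degLE {σ : Type} (I : Ideal (MvPolynomial σ ℂ)) (d : ℕ) :
    Ideal (MvPolynomial σ ℂ) :=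
  Ideal.span {f | f ∈ I ∧ ∃ e ≤ d, f.IsHomogeneous e}

/-- The saturation with respect to the irrelevant ideal `m` generated by the variables. -/
def saturation {σ : Type} (J : Ideal (MvPolynomial σ ℂ)) : Set (MvPolynomial σ ℂ) :=
  {f | ∃ k : ℕ, ∀ h ∈ (Ideal.span (Set.range (X : σ → MvPolynomial σ ℂ))) ^ k, h * f ∈ J}

/-! ### The star with three leaves -/

/-- the star -/
abbrev ST : SimpleGraph (Fin 4) := SimpleGraph.starGraph 0

theorem st_adj (x y : Fin 4) : ST.Adj x y ↔ x ≠ y ∧ (x = 0 ∨ y = 0) :=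
  SimpleGraph.starGraph_adj

theorem leaf_iff (v : Fin 4) : (∃! w, ST.Adj v w) ↔ v ≠ 0 := by
  constructor
  · rintro ⟨w, hw, huniq⟩ rfl
    have h1 := huniq 1 ((st_adj 0 1).mpr ⟨by decide, Or.inl rfl⟩)
    have h2 := huniq 2 ((st_adj 0 2).mpr ⟨by decide, Or.inl rfl⟩)
    rw [← h2] at h1
    exact absurd h1 (by decide)
  · intro hv
    refine ⟨0, (st_adj v 0).mpr ⟨hv, Or.inr rfl⟩, ?_⟩
    intro w hw
    rcases ((st_adj v w).mp hw).2 with h | h
    · exact absurd h hv
    · exact h

/-- leaves are indexed by `Fin 3` -/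
def leafE : Fin 3 ≃ Leaf ST where
  toFun i := ⟨i.succ, (leaf_iff _).mpr (Fin.succ_ne_zero i)⟩
  invFun l := l.1.pred ((leaf_iff _).mp l.2)
  left_inv i := by simp
  right_inv l := by apply Subtype.ext; simp

/-- the edge of a leaf -/
def edgeOf (i : Fin 3) : ST.edgeSet :=
  ⟨s(0, i.succ), (st_adj 0 i.succ).mpr ⟨(Fin.succ_ne_zero i).symm, Or.inl rfl⟩⟩

theorem edgeOf_bij : Function.Bijective edgeOf := by
  constructor
  · intro i j h
    have h1 : s((0 : Fin 4), i.succ) = s(0, j.succ) := congrArg Subtype.val h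
    rw [Sym2.eq_iff] at h1
    rcases h1 with ⟨_, h2⟩ | ⟨h2, _⟩
    · exact Fin.succ_injective _ h2
    · exact absurd h2.symm (Fin.succ_ne_zero j)
  · rintro ⟨e, he⟩
    induction e using Sym2.ind with
    | _ x y =>
      have h1 := (st_adj x y).mp he
      rcases h1.2 with h2 | h2
      · subst h2
        refine ⟨y.pred (Ne.symm h1.1), ?_⟩
        apply Subtype.ext
        simp [edgeOf]
      · subst h2
        refine ⟨x.pred h1.1, ?_⟩
        apply Subtype.ext
        simp [edgeOf, Sym2.eq_swap]

/-- edges are indexed by `Fin 3` -/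
noncomputable def edgeE : Fin 3 ≃ ST.edgeSet := Equiv.ofBijective edgeOf edgeOf_bij

/-- the chosen end point: the leaf -/
noncomputable def uu (e : ST.edgeSet) : Fin 4 := (edgeE.symm e).succ

theorem uu_edgeOf (i : Fin 3) : uu (edgeE i) = i.succ := by
  simp [uu]

theorem uu_mem (e : ST.edgeSet) : uu e ∈ e.1 := by
  obtain ⟨i, rfl⟩ := edgeE.surjective e
  rw [uu_edgeOf]
  show i.succ ∈ s((0 : Fin 4), i.succ)
  exact Sym2.mem_mk_right _ _

theorem side_eq (i : Fin 3) : side ST (edgeE i).1 (uu (edgeE i)) = {leafE i} := by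
  rw [uu_edgeOf]
  ext l
  simp only [side, Set.mem_ofPred_eq, Set.mem_singleton_iff]
  constructor
  · rintro ⟨p⟩
    apply Subtype.ext
    show l.1 = i.succ
    generalize hw : l.1 = w at p
    cases p with
    | nil => rfl
    | cons h p' =>
      exfalso
      rw [SimpleGraph.deleteEdges_adj] at h
      obtain ⟨h1, h2⟩ := h
      have h3 := (st_adj _ _).mp h1
      rcases h3.2 with h4 | h4
      · exact absurd h4 (Fin.succ_ne_zero i)
      · subst h4
        apply h2
        show s(i.succ, (0 : Fin 4)) = s(0, i.succ)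
        exact Sym2.eq_swap
  · rintro rfl
    exact SimpleGraph.Reachable.refl _

theorem sigma_eq {G : Type} [AddCommGroup G] (g : Leaf ST → G) (i : Fin 3) :
    sigma ST uu g (edgeE i) = g (leafE i) := by
  rw [sigma, side_eq]
  simp

theorem finsum_eq {G : Type} [AddCommGroup G] (g : Leaf ST → G) :
    ∑ᶠ l, g l = g (leafE 0) + g (leafE 1) + g (leafE 2) := by
  rw [← finsum_comp_equiv leafE, finsum_eq_sum_of_fintype, Fin.sum_univ_three]

/-- the index equivalence -/
noncomputable def eqv (G : Type) [AddCommGroup G] : Coord G ST ≃ G × G where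
  toFun g := (g.1 (leafE 0), g.1 (leafE 1))
  invFun r := ⟨fun l => ![r.1, r.2, - r.1 - r.2] (leafE.symm l), by
    rw [finsum_eq]; simp⟩
  left_inv := by
    rintro ⟨g, h⟩
    rw [finsum_eq] at h
    have h2 : - g (leafE 0) - g (leafE 1) = g (leafE 2) := by
      rw [← sub_eq_zero, ← neg_eq_zero, ← h]; abel
    apply Subtype.ext
    funext l
    obtain ⟨i, rfl⟩ := leafE.surjective l
    simp only [Equiv.symm_apply_apply]
    fin_cases i
    · rfl
    · rfl
    · exact h2
  right_inv := by
    rintro ⟨a, b⟩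
    simp

theorem co_eqv {G : Type} [AddCommGroup G] (g : Coord G ST) (c : Fin 3) :
    H929R3.co c (eqv G g) = g.1 (leafE c) := by
  obtain ⟨g, h⟩ := g
  rw [finsum_eq] at h
  have h2 : - g (leafE 0) - g (leafE 1) = g (leafE 2) := by
    rw [← sub_eq_zero, ← neg_eq_zero, ← h]; abel
  fin_cases c
  · rfl
  · rfl
  · exact h2

/-- the exponent vectors for the star -/
noncomputable def ES {G : Type} [AddCommGroup G] (g : Coord G ST) : (ST.edgeSet × G) →₀ ℕ :=
  Finsupp.mapDomain (Prod.map edgeE id) (H929R3.E0 (eqv G g))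

theorem param_eq (G : Type) [AddCommGroup G] :
    param G ST uu = H929R3.mono (ES (G := G)) := by
  unfold param H929R3.mono
  congr 1
  funext g
  rw [ES, H929R3.E0, Finsupp.mapDomain_finsetSum, monomial_sum_one,
    ← finprod_comp_equiv edgeE, finprod_eq_prod_of_fintype]
  refine Finset.prod_congr rfl fun c _ => ?_
  rw [Finsupp.mapDomain_single, sigma_eq, co_eqv]
  rfl

theorem lin_ES {G : Type} [AddCommGroup G] (M : Coord G ST →₀ ℕ) :
    H929R3.lin (ES (G := G)) M =
      Finsupp.mapDomain (Prod.map edgeE id) (H929R3.lin (fun s => H929R3.E0 (eqv G s)) M) := by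
  induction M using Finsupp.induction_linear with
  | zero => simp
  | add f g hf hg => rw [map_add, map_add, hf, hg, Finsupp.mapDomain_add]
  | single a b =>
    rw [H929R3.lin, H929R3.lin, Finsupp.linearCombination_single,
      Finsupp.linearCombination_single, Finsupp.mapDomain_smul, ES]

theorem map_inj {G : Type} [AddCommGroup G] :
    Function.Injective (Finsupp.mapDomain (M := ℕ) (Prod.map edgeE (id : G → G))) :=
  Finsupp.mapDomain_injective (edgeE.injective.prodMap Function.injective_id)

theorem sat_mono {σ : Type} {J J' : Ideal (MvPolynomial σ ℂ)} (h : J ≤ J') :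
    saturation J ⊆ saturation J' := by
  rintro f ⟨k, hk⟩
  exact ⟨k, fun x hx => h (hk x hx)⟩

theorem degPart_le_degLE {σ : Type} (I : Ideal (MvPolynomial σ ℂ)) {d e : ℕ} (h : d ≤ e) :
    degPart I d ≤ degLE I e :=
  Ideal.span_mono fun _ hf => ⟨hf.1, d, h, hf.2⟩

theorem degLE_le_degLE {σ : Type} (I : Ideal (MvPolynomial σ ℂ)) {d e : ℕ} (h : d ≤ e) :
    degLE I d ≤ degLE I e :=
  Ideal.span_mono fun _ hf => ⟨hf.1, hf.2.choose, hf.2.choose_spec.1.trans h,
    hf.2.choose_spec.2⟩

theorem degLE_le {σ : Type} (I : Ideal (MvPolynomial σ ℂ)) (d : ℕ) : degLE I d ≤ I :=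
  Ideal.span_le.mpr fun _ hf => hf.1

theorem sat_le (G : Type) [AddCommGroup G] :
    saturation (modelIdeal G ST uu) ⊆ (modelIdeal G ST uu : Set (MvPolynomial (Coord G ST) ℂ)) := by
  rintro f ⟨k, hk⟩
  have g0 : Coord G ST := ⟨fun _ => 0, by simp⟩
  have h1 := hk _ (Ideal.pow_mem_pow (Ideal.subset_span (Set.mem_range_self g0)) k)
  rw [modelIdeal, RingHom.mem_ker, param_eq, map_mul, map_pow] at h1
  have h2 : H929R3.mono (ES (G := G)) (X g0) ≠ 0 := by
    rw [H929R3.mono, aeval_X]
    intro h
    rw [monomial_eq_zero] at h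
    exact one_ne_zero h
  have h3 := (mul_eq_zero.mp h1).resolve_left (pow_ne_zero k h2)
  show f ∈ modelIdeal G ST uu
  rw [modelIdeal, RingHom.mem_ker, param_eq]
  exact h3

theorem main (Q : Polynomial ℕ) : ∃ (G : Type) (_ : AddCommGroup G) (_ : Fintype G),
    saturation (degLE (modelIdeal G ST uu) (Q.eval (Fintype.card G))) ⊂
      (modelIdeal G ST uu : Set (MvPolynomial (Coord G ST) ℂ)) := by
  obtain ⟨K, N, hK, hN, hG, hlt⟩ := H929R3.exists_beating Q
  have : NeZero N := ⟨hN.ne'⟩
  refine ⟨H929R3.GG N, inferInstance, inferInstance, ?_⟩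
  obtain ⟨T0, T1, g0, hdisj, hne, hd0, _, hlin, hfib⟩ := H929R3.core hK hG (eqv (H929R3.GG N))
  refine Set.ssubset_iff_subset_ne.mpr
    ⟨(sat_mono (degLE_le _ _)).trans (sat_le _), fun h1 => ?_⟩
  have hmem : (monomial T0 (1 : ℂ) - monomial T1 (1 : ℂ)) ∈
      modelIdeal (H929R3.GG N) ST uu := by
    rw [modelIdeal, RingHom.mem_ker, param_eq]
    apply H929R3.binomial_mem
    rw [lin_ES, lin_ES, hlin]
  have hsat : (monomial T0 (1 : ℂ) - monomial T1 (1 : ℂ)) ∈
      saturation (degLE (modelIdeal (H929R3.GG N) ST uu)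
        (Q.eval (Fintype.card (H929R3.GG N)))) := by
    rw [h1]; exact hmem
  obtain ⟨k, hk⟩ := hsat
  refine H929R3.not_mem_span (ES (G := H929R3.GG N)) T0 T1 g0 k hdisj hne ?_
    {f | f ∈ modelIdeal (H929R3.GG N) ST uu ∧
      ∃ e ≤ Q.eval (Fintype.card (H929R3.GG N)), f.IsHomogeneous e}
    ?_ (hk _ (Ideal.pow_mem_pow (Ideal.subset_span (Set.mem_range_self g0)) k))
  · intro M hM
    apply hfib k M
    rw [lin_ES, lin_ES] at hM
    exact map_inj hM
  · rintro q ⟨hq1, e, he, hq2⟩
    rw [modelIdeal, RingHom.mem_ker, param_eq] at hq1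
    refine ⟨hq1, ?_⟩
    refine lt_of_le_of_lt (hq2.totalDegree_le.trans he) ?_
    rw [hd0, H929R3.card_GG]
    exact hlt

theorem side_zero (i : Fin 3) : side ST (edgeE i).1 0 = {l | l ≠ leafE i} := by
  ext l
  simp only [side, Set.mem_ofPred_eq]
  constructor
  · intro h hl
    subst hl
    obtain ⟨p⟩ := h.symm
    generalize hv : (leafE i).1 = v at p
    generalize hw : (0 : Fin 4) = w at p
    have hv' : v = i.succ := hv.symm
    cases p with
    | nil => exact Fin.succ_ne_zero i (hv'.symm.trans hw.symm)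
    | cons h p' =>
      rw [SimpleGraph.deleteEdges_adj] at h
      obtain ⟨h1, h2⟩ := h
      subst hv'
      have h3 := (st_adj _ _).mp h1
      rcases h3.2 with h4 | h4
      · exact absurd h4 (Fin.succ_ne_zero i)
      · subst h4
        apply h2
        show s(i.succ, (0 : Fin 4)) = s(0, i.succ)
        exact Sym2.eq_swap
  · intro hl
    obtain ⟨j, rfl⟩ := leafE.surjective l
    have hji : j ≠ i := fun h => hl (by rw [h])
    apply SimpleGraph.Adj.reachable
    rw [SimpleGraph.deleteEdges_adj]
    refine ⟨(st_adj 0 j.succ).mpr ⟨(Fin.succ_ne_zero j).symm, Or.inl rfl⟩, fun h => hji ?_⟩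
    have h' : s((0 : Fin 4), j.succ) = s(0, i.succ) := h
    rw [Sym2.eq_iff] at h'
    rcases h' with ⟨_, h2⟩ | ⟨h2, _⟩
    · exact Fin.succ_injective _ h2
    · exact absurd h2.symm (Fin.succ_ne_zero i)

theorem sigma_zero {G : Type} [AddCommGroup G] (u : ST.edgeSet → Fin 4) (g : Leaf ST → G)
    (hg : ∑ᶠ l, g l = 0) (i : Fin 3) (h : u (edgeE i) = 0) :
    sigma ST u g (edgeE i) = - g (leafE i) := by
  classical
  rw [finsum_eq] at hg
  rw [sigma, h, side_zero, finsum_mem_def, ← finsum_comp_equiv leafE,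
    finsum_eq_sum_of_fintype, Fin.sum_univ_three, eq_neg_iff_add_eq_zero, ← hg]
  fin_cases i <;> simp [Set.indicator_apply, leafE.injective.eq_iff] <;> abel

theorem sigma_succ {G : Type} [AddCommGroup G] (u : ST.edgeSet → Fin 4) (g : Leaf ST → G)
    (i : Fin 3) (h : u (edgeE i) = i.succ) :
    sigma ST u g (edgeE i) = g (leafE i) := by
  rw [← sigma_eq g i, sigma, sigma, h, uu_edgeOf]

/-- the change of the parameters for another choice of the parts -/
noncomputable def flip {G : Type} [AddCommGroup G] (u : ST.edgeSet → Fin 4)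
    (x : ST.edgeSet × G) : ST.edgeSet × G :=
  if u x.1 = 0 then (x.1, -x.2) else x

theorem flip_inj {G : Type} [AddCommGroup G] (u : ST.edgeSet → Fin 4) :
    Function.Injective (flip (G := G) u) := by
  rintro ⟨a, b⟩ ⟨c, d⟩ h
  unfold flip at h
  by_cases h1 : u a = 0 <;> by_cases h2 : u c = 0
  · simp only [h1, h2, if_true, Prod.mk.injEq, neg_inj] at h
    exact Prod.ext h.1 h.2
  · simp only [h1, h2, if_true, if_false, Prod.mk.injEq] at h
    rw [← h.1] at h2
    exact absurd h1 h2
  · simp only [h1, h2, if_true, if_false, Prod.mk.injEq] at h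
    rw [← h.1] at h2
    exact absurd h2 h1
  · simpa only [h1, h2, if_false] using h

theorem ker_eq {G : Type} [AddCommGroup G] (u : ST.edgeSet → Fin 4) (hu : ∀ e, u e ∈ e.1) :
    modelIdeal G ST u = modelIdeal G ST uu := by
  have h1 : param G ST u = (rename (flip u)).comp (param G ST uu) := by
    apply algHom_ext
    intro g
    rw [AlgHom.comp_apply, param, param, aeval_X, aeval_X, ← finprod_comp_equiv edgeE,
      ← finprod_comp_equiv edgeE, finprod_eq_prod_of_fintype, finprod_eq_prod_of_fintype,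
      map_prod]
    refine Finset.prod_congr rfl fun i _ => ?_
    rw [rename_X, sigma_eq]
    have h2 : u (edgeE i) ∈ s((0 : Fin 4), i.succ) := hu (edgeE i)
    rcases Sym2.mem_iff.mp h2 with h | h
    · rw [sigma_zero u g.1 g.2 i h, flip, if_pos h]
    · rw [sigma_succ u g.1 i h, flip, if_neg]
      show u (edgeE i) ≠ 0
      rw [h]
      exact Fin.succ_ne_zero i
  ext f
  rw [modelIdeal, modelIdeal, RingHom.mem_ker, RingHom.mem_ker, h1, AlgHom.comp_apply]
  constructor
  · intro h
    exact rename_injective _ (flip_inj u) (h.trans (map_zero _).symm)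
  · intro h
    rw [h, map_zero]

/-- For every polynomial `P` there is a finite abelian group `G` such that, for the star with
three leaves (and every choice of the parts `L_e`), the saturation of the ideal generated by the part of
degree `|G|` of the ideal of the model is strictly smaller than the ideal of the model, and so is
the saturation of the ideal generated by all parts of degree at most `P(|G|)`. -/
theorem result :
    (SimpleGraph.starGraph (0 : Fin 4)).IsTree ∧
    ∀ P : Polynomial ℕ, ∃ (G : Type) (_ : AddCommGroup G) (_ : Fintype G),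
      ∀ u : (SimpleGraph.starGraph (0 : Fin 4)).edgeSet → Fin 4, (∀ e, u e ∈ e.1) →
        saturation (degPart (modelIdeal G (SimpleGraph.starGraph (0 : Fin 4)) u)
            (Fintype.card G)) ⊂
          (modelIdeal G (SimpleGraph.starGraph (0 : Fin 4)) u : Set (MvPolynomial _ ℂ)) ∧
        saturation (degLE (modelIdeal G (SimpleGraph.starGraph (0 : Fin 4)) u)
            (P.eval (Fintype.card G))) ⊂
          (modelIdeal G (SimpleGraph.starGraph (0 : Fin 4)) u : Set (MvPolynomial _ ℂ)) := by
  refine ⟨SimpleGraph.isTree_starGraph 0, fun P => ?_⟩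
  obtain ⟨G, i1, i2, h⟩ := main (P + Polynomial.X)
  refine ⟨G, i1, i2, fun u hu => ?_⟩
  rw [Polynomial.eval_add, Polynomial.eval_X] at h
  rw [ker_eq u hu]
  exact ⟨(sat_mono (degPart_le_degLE _ (Nat.le_add_left _ _))).trans_ssubset h,
    (sat_mono (degLE_le_degLE _ (Nat.le_add_right _ _))).trans_ssubset h⟩

end Pool.Agent.Results.MP_0eda79_ag.SatFails
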